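import Pool.Agent.Lib.MP_4a5947_co.Main

/-!
A series-parallel poset on nine elements with bipartite covering graph and no one-edge series cut,
and a 0/1 weighting, for which the largest weight of a linear extension is 3, while covering the
weighted poset by series cuts and bifans takes 4 members, whichever bifans are admitted.
-/

set_option autoImplicit false

namespace Pool.Agent.Results.MP_4a5947_co.RobustGap

open Pool.Agent.Lib.MP_4a5947_co

/-- `SPSet A` : the finite set `A` of elements, with the induced order, is series-parallel, that is,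
built from one-element sets by disjoint unions of mutually incomparable sets (`par`) and ordinal
sums (`ser`). -/
inductive SPSet {α : Type} [PartialOrder α] : Set α → Prop
  | single (x : α) : SPSet {x}
  | par (A B : Set α) (hA : SPSet A) (hB : SPSet B)
      (h : ∀ a ∈ A, ∀ b ∈ B, ¬ a ≤ b ∧ ¬ b ≤ a) : SPSet (A ∪ B)
  | ser (A B : Set α) (hA : SPSet A) (hB : SPSet B)
      (h : ∀ a ∈ A, ∀ b ∈ B, a < b) : SPSet (A ∪ B)

/-- The series cut through the edge `(x, y)`: all edges from a lower cover of `y` to an upper cover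
of `x`. -/
def seriesCut {α : Type} [PartialOrder α] (x y : α) : Set (α × α) :=
  {p | p.1 ⋖ p.2 ∧ p.1 ⋖ y ∧ x ⋖ p.2}

/-- The bifan at `v`: all edges incident with `v`. -/
def bifan {α : Type} [PartialOrder α] (v : α) : Set (α × α) :=
  {p | p.1 ⋖ p.2 ∧ (p.1 = v ∨ p.2 = v)}

/-- `v` has a lower cover `u` and an upper cover `w` both joined by edges to some `z ≠ v`. -/
def Paralleled {α : Type} [PartialOrder α] (v : α) : Prop :=
  ∃ u w z : α, u ⋖ v ∧ v ⋖ w ∧ z ≠ v ∧ (u ⋖ z ∨ z ⋖ u) ∧ (w ⋖ z ∨ z ⋖ w)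

open Classical in
/-- The weight of the ordering `L`: the sum of `c x y` over the edges `(x, y)` with `y` immediately
after `x`. -/
noncomputable def extWeight {α : Type} [PartialOrder α] [Fintype α] (c : α → α → ℕ)
    (L : α ≃ Fin (Fintype.card α)) : ℕ :=
  ∑ p ∈ Finset.univ.filter
    (fun p : α × α => p.1 ⋖ p.2 ∧ (L p.2 : ℕ) = (L p.1 : ℕ) + 1), c p.1 p.2

/-- There is a family of `m` sets (with multiplicity), each a series cut through an edge or the
bifan at some `v` with `Par v`, such that every edge `(x, y)` lies in at least `c x y` of them. -/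
def HasCover {α : Type} [PartialOrder α] (c : α → α → ℕ) (Par : α → Prop) (m : ℕ) : Prop :=
  ∃ F : Fin m → Set (α × α),
    (∀ i, (∃ x y : α, x ⋖ y ∧ F i = seriesCut x y) ∨ (∃ v : α, Par v ∧ F i = bifan v)) ∧
    ∀ x y : α, x ⋖ y → c x y ≤ Nat.card {i : Fin m // (x, y) ∈ F i}

theorem spset_univ : SPSet (Set.univ : Set P9) := by
  have h01 : ∀ i : Fin 9, SPSet ({e i} : Set P9) := fun i => SPSet.single _
  have inc : ∀ i j : Fin 9, ¬ (e i ≤ e j) → ¬ (e j ≤ e i) →
      SPSet ({e i} ∪ {e j} : Set P9) := by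
    intro i j h1 h2
    apply SPSet.par _ _ (h01 i) (h01 j)
    rintro a rfl b rfl
    exact ⟨h1, h2⟩
  have h23 := inc 2 3 (by decide) (by decide)
  have h45 := inc 4 5 (by decide) (by decide)
  have h67 := inc 6 7 (by decide) (by decide)
  have h2345 : SPSet (({e 2} ∪ {e 3}) ∪ ({e 4} ∪ {e 5}) : Set P9) := by
    apply SPSet.ser _ _ h23 h45
    rintro a (rfl | rfl) b (rfl | rfl) <;> decide
  have h234567 : SPSet ((({e 2} ∪ {e 3}) ∪ ({e 4} ∪ {e 5})) ∪ ({e 6} ∪ {e 7}) : Set P9) := by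
    apply SPSet.ser _ _ h2345 h67
    rintro a ((rfl | rfl) | (rfl | rfl)) b (rfl | rfl) <;> decide
  have hmid : SPSet ({e 1} ∪ ((({e 2} ∪ {e 3}) ∪ ({e 4} ∪ {e 5})) ∪ ({e 6} ∪ {e 7})) : Set P9) := by
    apply SPSet.par _ _ (h01 1) h234567
    rintro a rfl b (((rfl | rfl) | (rfl | rfl)) | (rfl | rfl)) <;> decide
  have hbot : SPSet ({e 0} ∪
      ({e 1} ∪ ((({e 2} ∪ {e 3}) ∪ ({e 4} ∪ {e 5})) ∪ ({e 6} ∪ {e 7}))) : Set P9) := by
    apply SPSet.ser _ _ (h01 0) hmid
    rintro a rfl b (rfl | (((rfl | rfl) | (rfl | rfl)) | (rfl | rfl))) <;> decide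
  have htop : SPSet (({e 0} ∪
      ({e 1} ∪ ((({e 2} ∪ {e 3}) ∪ ({e 4} ∪ {e 5})) ∪ ({e 6} ∪ {e 7})))) ∪ {e 8} : Set P9) := by
    apply SPSet.ser _ _ hbot (h01 8)
    rintro a (rfl | (rfl | (((rfl | rfl) | (rfl | rfl)) | (rfl | rfl)))) b rfl <;> decide
  convert htop
  ext x
  obtain ⟨i⟩ := x
  fin_cases i <;> simp [e]

/-- positions of the elements in a linear extension of weight three -/
def pos : Fin 9 → Fin 9 := ![0, 1, 3, 2, 4, 5, 6, 7, 8]

/-- the inverse positions -/
def posInv : Fin 9 → Fin 9 := ![0, 1, 3, 2, 4, 5, 6, 7, 8]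

/-- the linear extension -/
def L0 : P9 ≃ Fin 9 where
  toFun x := pos x.val
  invFun i := ⟨posInv i⟩
  left_inv := by decide
  right_inv := by decide

/-- the linear extension, with the right codomain -/
def L1 : P9 ≃ Fin (Fintype.card P9) := L0.trans (finCongr card_P9.symm)

theorem L1_val (x : P9) : (L1 x : ℕ) = (pos x.val : ℕ) := rfl

theorem L1_mono : ∀ x y : P9, x < y → L1 x < L1 y := by
  have h : ∀ x y : P9, x < y → (pos x.val : ℕ) < (pos y.val : ℕ) := by decide
  intro x y hxy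
  exact h x y hxy

theorem sum_E7 :
    (∑ p ∈ E7, if (pos p.2.val : ℕ) = (pos p.1.val : ℕ) + 1 then 1 else 0) = 3 := by
  decide

theorem weight_L1 : extWeight wt L1 = 3 := by
  classical
  unfold extWeight
  rw [← sum_E7, Finset.sum_filter]
  have h1 : ∀ p : P9 × P9,
      (if p.1 ⋖ p.2 ∧ (L1 p.2 : ℕ) = (L1 p.1 : ℕ) + 1 then wt p.1 p.2 else 0)
      = (if p ∈ E7 then (if (pos p.2.val : ℕ) = (pos p.1.val : ℕ) + 1 then 1 else 0) else 0) := by
    intro p
    by_cases hp : p ∈ E7
    · have hc : p.1 ⋖ p.2 := (covBy_iff _ _).2 (E7_cov p hp)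
      simp only [wt, Prod.mk.eta, hp, if_true, hc, true_and, L1_val]
    · simp [wt, hp]
  rw [Finset.sum_congr rfl (fun p _ => h1 p), ← Finset.sum_filter]
  congr 1
  ext p
  simp

/-- the lower ends of four edges, one in each series cut -/
def lo : Fin 4 → P9 := ![e 0, e 2, e 4, e 6]

/-- the upper ends of four edges, one in each series cut -/
def up : Fin 4 → P9 := ![e 1, e 4, e 6, e 8]

theorem lo_cov_up : ∀ i, Cov (lo i) (up i) := by decide +kernel

theorem four_cuts : ∀ p ∈ E7, ∃ i : Fin 4, Cov p.1 (up i) ∧ Cov (lo i) p.2 := by decide +kernel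

theorem hasCover_four (Par : P9 → Prop) : HasCover wt Par 4 := by
  refine ⟨fun i => seriesCut (lo i) (up i), fun i => Or.inl ⟨lo i, up i,
    (covBy_iff _ _).2 (lo_cov_up i), rfl⟩, ?_⟩
  intro x y hxy
  by_cases h : (x, y) ∈ E7
  · obtain ⟨i, h1, h2⟩ := four_cuts _ h
    have hw : wt x y = 1 := by simp [wt, h]
    rw [hw]
    have : Nonempty {i : Fin 4 // (x, y) ∈ seriesCut (lo i) (up i)} :=
      ⟨⟨i, hxy, (covBy_iff _ _).2 h1, (covBy_iff _ _).2 h2⟩⟩
    exact Nat.card_pos
  · simp [wt, h]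

/-- There is a nine element series-parallel poset with bipartite covering graph and no one-edge
series cut, and a weighting by 0 and 1, such that the largest weight of a linear extension is 3,
while, whichever set `Par` of elements is declared paralleled, every covering family of series cuts
and bifans at elements of `Par` has at least 4 members, and 4 is attained. -/
theorem result : ∃ (α : Type) (_ : Fintype α) (_ : PartialOrder α) (c : α → α → ℕ),
    Fintype.card α = 9 ∧
    SPSet (Set.univ : Set α) ∧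
    (¬ ∃ a b c d : α, a < b ∧ c < b ∧ c < d ∧ ¬ a ≤ c ∧ ¬ c ≤ a ∧
        ¬ a ≤ d ∧ ¬ d ≤ a ∧ ¬ b ≤ d ∧ ¬ d ≤ b) ∧
    (∃ col : α → Bool, ∀ x y : α, x ⋖ y → col x ≠ col y) ∧
    (∀ x y : α, x ⋖ y → ∃ q ∈ seriesCut x y, q ≠ (x, y)) ∧
    (∀ x y : α, c x y ≤ 1) ∧
    IsGreatest {w : ℕ | ∃ L : α ≃ Fin (Fintype.card α),
      (∀ x y : α, x < y → L x < L y) ∧ extWeight c L = w} 3 ∧
    IsLeast {m : ℕ | HasCover c Paralleled m} 4 ∧
    ∀ Par : α → Prop, IsLeast {m : ℕ | HasCover c Par m} 4 := by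
  classical
  have key : ∀ Par : P9 → Prop, IsLeast {m : ℕ | HasCover wt Par m} 4 := by
    intro Par
    refine ⟨hasCover_four Par, ?_⟩
    rintro m ⟨F, hF, hc⟩
    refine four_le m F ?_ ?_
    · intro i
      rcases hF i with h | ⟨v, _, hi⟩
      · exact Or.inl h
      · exact Or.inr ⟨v, hi⟩
    · intro p hp
      have h := hc p.1 p.2 hp
      rw [Nat.card_eq_fintype_card, Fintype.card_subtype] at h
      exact h
  refine ⟨P9, inferInstance, inferInstance, wt, card_P9, spset_univ, noN, ⟨col, fun x y h =>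
    col_ok x y ((covBy_iff _ _).1 h)⟩, ?_, ?_, ⟨⟨L1, L1_mono, weight_L1⟩, ?_⟩, key _, key⟩
  · intro x y h
    obtain ⟨x', y', h1, h2, h3, h4⟩ := no_one_edge x y ((covBy_iff _ _).1 h)
    refine ⟨(x', y'), ⟨(covBy_iff _ _).2 h1, (covBy_iff _ _).2 h2, (covBy_iff _ _).2 h3⟩, ?_⟩
    intro h5
    rw [Prod.mk.injEq] at h5
    rcases h4 with h4 | h4
    · exact h4 h5.1
    · exact h4 h5.2
  · intro x y
    unfold wt
    split_ifs <;> simp
  · rintro w ⟨L, hL, rfl⟩
    unfold extWeight
    convert weight_le_three L hL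

end Pool.Agent.Results.MP_4a5947_co.RobustGap
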